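import Pool.Agent.helper87.X4.Spec

/-!
# X4, row M2 (see the docstring of `M2_stmt`)
-/

set_option autoImplicit false

namespace Pool.Agent.X4

open Matrix Pool.Agent.PL

theorem M2 (hM1K : M1K_stmt) (hHG : HG_stmt) (hBT : BT_stmt) (hDC : DC_stmt) (_hDL : DL_stmt)
    (hDB : DB_stmt) (hTP : TP_stmt) : M2_stmt := by
  intro F _ _ N E D hcont π hπ h2 h4 m t ht e
  -- basic facts on `P`
  have hue : (D.P e)⁻¹ * D.P e = 1 :=
    Matrix.nonsing_inv_mul _ ((Matrix.isUnit_iff_isUnit_det _).1 (D.isUnit e))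
  have hue' : D.P e * (D.P e)⁻¹ = 1 :=
    Matrix.mul_nonsing_inv _ ((Matrix.isUnit_iff_isUnit_det _).1 (D.isUnit e))
  have hub : (D.P D.base)⁻¹ * D.P D.base = 1 :=
    Matrix.nonsing_inv_mul _ ((Matrix.isUnit_iff_isUnit_det _).1 (D.isUnit D.base))
  have hub' : D.P D.base * (D.P D.base)⁻¹ = 1 :=
    Matrix.mul_nonsing_inv _ ((Matrix.isUnit_iff_isUnit_det _).1 (D.isUnit D.base))
  have htp : ∀ (a b : Matrix (Fin N) (Fin N) F) (n : ℕ) (x : Tn N n F),
      tp a n *ᵥ (tp b n *ᵥ x) = tp (a * b) n *ᵥ x := by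
    intro a b n x
    rw [(hTP N n F a b).1, Matrix.mulVec_mulVec]
  have htp1 : ∀ (n : ℕ) (x : Tn N n F), tp (1 : Matrix (Fin N) (Fin N) F) n *ᵥ x = x := by
    intro n x
    rw [(hTP N n F 1 1).2, Matrix.one_mulVec]
  set c : Matrix (Fin N) (Fin N) F := (D.P e)⁻¹ * D.P D.base with hc
  set c' : Matrix (Fin N) (Fin N) F := (D.P D.base)⁻¹ * D.P e with hc'
  have hcc' : c * c' = 1 := by
    rw [hc, hc', Matrix.mul_assoc, ← Matrix.mul_assoc (D.P D.base), hub', Matrix.one_mul, hue]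
  have hc'c : c' * c = 1 := by
    rw [hc, hc', Matrix.mul_assoc, ← Matrix.mul_assoc (D.P e), hue', Matrix.one_mul, hub]
  -- injectivity of `cls e`
  have hinj : ∀ (n : ℕ) (s s' : Tn N n ℚ), D.cls e n s = D.cls e n s' → s = s' := by
    intro n s s' h
    have h1 : tp ((D.P e)⁻¹) n *ᵥ D.cls e n s = tp ((D.P e)⁻¹) n *ᵥ D.cls e n s' := by rw [h]
    unfold Datum.cls at h1
    rw [htp, htp, hue, htp1, htp1] at h1
    funext I
    have h3 := congrFun h1 I
    exact_mod_cast h3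
  -- transport
  have htr : ∀ (n : ℕ) (s t' : Tn N n ℚ), D.cls e n s = D.cls D.base n t' →
      up F s = tp c n *ᵥ up F t' := by
    intro n s t' h
    have h1 : tp ((D.P e)⁻¹) n *ᵥ D.cls e n s = tp ((D.P e)⁻¹) n *ᵥ D.cls D.base n t' := by rw [h]
    unfold Datum.cls at h1
    rw [htp, htp, hue, htp1] at h1
    exact h1
  -- elements of `Tb` are absolutely Hodge
  have hTb : ∀ (n : ℕ) (t' : Tn N n ℚ), t' ∈ Tb D (tau (D.Q D.base) π) n → t' ∈ D.AH n := by
    intro n t' ht'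
    rcases ht' with ⟨hn, h⟩ | ⟨hn, h⟩
    · subst hn
      exact h2 t' h
    · subst hn
      rw [h]
      exact h4
  let T : (n : ℕ) → Set (Tn N n ℚ) := fun n =>
    {s | ∃ t' ∈ Tb D (tau (D.Q D.base) π) n, D.cls e n s = D.cls D.base n t'}
  have hTsub : ∀ n, T n ⊆ Fix (D.h e) n := by
    rintro n s ⟨t', ht', hs⟩
    obtain ⟨-, hAH⟩ := hTb n t' ht'
    obtain ⟨s', hs', hcl⟩ := hAH e
    have : s = s' := hinj n s s' (hs.trans hcl.symm)
    rw [this]
    exact hs'
  obtain ⟨hG1, -⟩ := hHG N (D.h e) (hcont e) T hTsub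
  -- the key claim
  have hkey : ∀ X ∈ Kil T, der (cst F X) m (tp c m *ᵥ up F t) = 0 := by
    intro X hX
    have hconj : c * (c' * cst F X * c) * c' = cst F X := by
      rw [Matrix.mul_assoc, Matrix.mul_assoc (c' * cst F X), hcc', Matrix.mul_one,
        ← Matrix.mul_assoc, hcc', Matrix.one_mul]
    have hA : ∀ n, ∀ t' ∈ Tb D (tau (D.Q D.base) π) n,
        der (c' * cst F X * c) n (up F t') = 0 := by
      intro n t' ht'
      obtain ⟨-, hAH⟩ := hTb n t' ht'
      obtain ⟨s, -, hcl⟩ := hAH e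
      have hsT : s ∈ T n := ⟨t', ht', hcl⟩
      have h1 : der X n s = 0 := hX n s hsT
      have h3 : der (cst F X) n (up F s) = 0 := by
        rw [← hDB N n F X s, h1]
        funext I
        simp [up]
      have h5 := hDC N n F c c' (c' * cst F X * c) hcc' hc'c (up F t')
      rw [hconj, ← htr n s t' hcl, h3] at h5
      have h6 : tp c' n *ᵥ (tp c n *ᵥ der (c' * cst F X * c) n (up F t')) = 0 := by
        rw [h5, Matrix.mulVec_zero]
      rw [htp, hc'c, htp1] at h6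
      exact h6
    have h7 := hM1K F N E D hcont π hπ F (c' * cst F X * c) hA m t ht
    have h8 := hDC N m F c c' (c' * cst F X * c) hcc' hc'c (up F t)
    rw [hconj, h7, Matrix.mulVec_zero] at h8
    exact h8.symm
  have hspan := hBT F N m (Kil T) (tp c m *ᵥ up F t) hkey
  have h9 : Matrix.mulVecLin (tp (D.P e) m) (tp c m *ᵥ up F t) = D.cls D.base m t := by
    rw [Matrix.mulVecLin_apply, htp, hc, ← Matrix.mul_assoc, hue', Matrix.one_mul]
    rfl
  rw [← h9]
  have h10 := Submodule.mem_map_of_mem (f := Matrix.mulVecLin (tp (D.P e) m)) hspan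
  rw [Submodule.map_span] at h10
  refine Submodule.span_mono ?_ h10
  rintro _ ⟨_, ⟨s, hs, rfl⟩, rfl⟩
  exact ⟨s, hG1 m s hs, rfl⟩

end Pool.Agent.X4
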